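import Pool.Agent.W788.NV.Stm

namespace Pool.Agent.W491.NV

open Finset Pool.Agent.W788.NV

theorem agree {V : Type} [DecidableEq V] {q : ℕ} (Ψ : Mp V q) (D : Finset V) :
    (∀ w ∈ D, ∀ (y : V → Fin q) (a : Fin q), Ψ (Function.update y w a) = Ψ y) →
    ∀ y y' : V → Fin q, (∀ w, w ∉ D → y w = y' w) → Ψ y = Ψ y' := by
  induction D using Finset.induction_on with
  | empty =>
    intro _ y y' h
    have : y = y' := funext fun w => h w (Finset.notMem_empty w)
    rw [this]
  | insert b D _ ih =>
    intro hD y y' h
    have h1 : Ψ (Function.update y b (y' b)) = Ψ y := hD b (Finset.mem_insert_self b D) y (y' b)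
    rw [← h1]
    refine ih (fun w hw => hD w (Finset.mem_insert_of_mem hw)) _ _ ?_
    intro w hw
    by_cases hb : w = b
    · subst hb; simp
    · rw [Function.update_of_ne hb]
      exact h w (fun hm => by
        rcases Finset.mem_insert.1 hm with h2 | h2
        · exact hb h2
        · exact hw h2)

theorem act_eq {V : Type} [DecidableEq V] {q : ℕ} (e : (V × Fin q) ⊕ (V × V)) (x : V → Fin q) :
    ∃ c, act e x = Function.update x (site e) c := by
  cases e with
  | inl p => exact ⟨p.2, rfl⟩
  | inr p => exact ⟨x p.2, rfl⟩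

theorem loc_ : S_LOC := by
  intro V _ _ q Ψ Φ e h x
  obtain ⟨c, hc⟩ := act_eq e x
  rw [hc]
  refine agree Ψ (dep Φ (site e)) ?_ _ _ ?_
  · intro w hw y a
    have h0 := h w hw
    funext w'
    by_contra hne
    have : w' ∈ dep Ψ w := by
      unfold dep
      simp only [Finset.mem_filter, Finset.mem_univ, true_and]
      exact ⟨y, a, hne⟩
    rw [h0] at this
    exact Finset.notMem_empty _ this
  · intro w hw
    by_contra hne
    apply hw
    unfold dep
    simp only [Finset.mem_filter, Finset.mem_univ, true_and]
    exact ⟨x, c, hne⟩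

end Pool.Agent.W491.NV
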